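import Mathlib

open Function Cardinal

namespace Pool.Agent.Lib.helper6

universe u

lemma krullDim_eq_of_isIntegral {R S : Type*} [CommRing R] [CommRing S] [Algebra R S]
    [Algebra.IsIntegral R S] (hinj : Injective (algebraMap R S)) :
    ringKrullDim S = ringKrullDim R := by
  apply le_antisymm
  · refine Order.krullDim_le_of_strictMono (PrimeSpectrum.comap (algebraMap R S)) ?_
    intro I J hIJ
    exact Ideal.IsIntegral.comap_lt_comap (R := R) (I := I.asIdeal) (J := J.asIdeal) hIJ
  · refine iSup_le fun l ↦ ?_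
    obtain ⟨Q, -, hQ, hQ'⟩ := Ideal.exists_ideal_over_prime_of_isIntegral (S := S)
      (RelSeries.head l).asIdeal ⊥ (by rw [Ideal.comap_bot_of_injective _ hinj]; exact bot_le)
    have : Q.LiesOver (RelSeries.head l).asIdeal := ⟨hQ'.symm⟩
    obtain ⟨L, hL, -⟩ := Ideal.exists_ltSeries_of_hasGoingUp l Q
    rw [← hL]
    exact Order.LTSeries.length_le_krullDim L

/-- Krull dimension equals transcendence degree for affine domains -/
theorem exists_dim_trdeg (k A : Type u) [Field k] [CommRing A] [IsDomain A] [Algebra k A]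
    [Algebra.FiniteType k A] : ∃ s : ℕ, ringKrullDim A = s ∧ Algebra.trdeg k A = s := by
  obtain ⟨s, g, hg, hint⟩ := exists_integral_inj_algHom_of_fg k A
  let : Algebra (MvPolynomial (Fin s) k) A := g.toRingHom.toAlgebra
  have : IsScalarTower k (MvPolynomial (Fin s) k) A :=
    IsScalarTower.of_algebraMap_eq fun x ↦ (g.commutes x).symm
  have : Algebra.IsIntegral (MvPolynomial (Fin s) k) A := ⟨hint⟩
  have : FaithfulSMul (MvPolynomial (Fin s) k) A :=
    (faithfulSMul_iff_algebraMap_injective _ _).mpr hg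
  refine ⟨s, ?_, ?_⟩
  · rw [krullDim_eq_of_isIntegral (R := MvPolynomial (Fin s) k) hg,
      MvPolynomial.ringKrullDim_of_isNoetherianRing, ringKrullDim_eq_zero_of_field]
    simp
  · rw [← trdeg_add_eq k (MvPolynomial (Fin s) k) (A := A), MvPolynomial.trdeg_of_isDomain,
      trdeg_eq_zero (R := MvPolynomial (Fin s) k)]
    simp

lemma dim_le_of_injective {k A B : Type u} [Field k] [CommRing A] [IsDomain A] [Algebra k A]
    [Algebra.FiniteType k A] [CommRing B] [IsDomain B] [Algebra k B] [Algebra.FiniteType k B]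
    (f : A →ₐ[k] B) (hf : Injective f) : ringKrullDim A ≤ ringKrullDim B := by
  obtain ⟨s, h1, h2⟩ := exists_dim_trdeg k A
  obtain ⟨t, h3, h4⟩ := exists_dim_trdeg k B
  have := trdeg_le_of_injective f hf
  rw [h2, h4] at this
  rw [h1, h3]
  exact_mod_cast this

lemma card_le_dim {k A ι : Type u} [Field k] [CommRing A] [Algebra k A] [Algebra.FiniteType k A]
    [Finite ι] {x : ι → A} (hx : AlgebraicIndependent k x) :
    (Nat.card ι : WithBot ℕ∞) ≤ ringKrullDim A := by
  have hinj : Injective (MvPolynomial.aeval x : MvPolynomial ι k →ₐ[k] A) := hx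
  obtain ⟨Q, hQ, hQ'⟩ := Ideal.exists_comap_eq_of_mem_minimalPrimes_of_injective
    (f := (MvPolynomial.aeval x : MvPolynomial ι k →ₐ[k] A).toRingHom) hinj ⊥
    (by rw [IsDomain.minimalPrimes_eq_singleton_bot]; rfl)
  have h1 : Injective ((Ideal.Quotient.mkₐ k Q).comp (MvPolynomial.aeval x)) := by
    rw [injective_iff_map_eq_zero]
    intro f hf
    have : f ∈ Q.comap (MvPolynomial.aeval x : MvPolynomial ι k →ₐ[k] A).toRingHom :=
      Ideal.mem_comap.mpr (Ideal.Quotient.eq_zero_iff_mem.mp hf)
    rwa [hQ', Ideal.mem_bot] at this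
  have h2 := dim_le_of_injective _ h1
  rw [MvPolynomial.ringKrullDim_of_isNoetherianRing, ringKrullDim_eq_zero_of_field, zero_add] at h2
  exact h2.trans (ringKrullDim_quotient_le Q)

open Polynomial in
lemma height_add_dim_step {k R : Type u} [Field k] [CommRing R] [Algebra k R]
    [Algebra.FiniteType k R] {n : ℕ}
    (h : ∀ p : Ideal R, p.IsPrime → (n : WithBot ℕ∞) ≤ p.height + ringKrullDim (R ⧸ p))
    (P : Ideal R[X]) (hP : P.IsPrime) :
    ((n + 1 : ℕ) : WithBot ℕ∞) ≤ P.height + ringKrullDim (R[X] ⧸ P) := by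
  have : IsNoetherianRing R := Algebra.FiniteType.isNoetherianRing k R
  set p : Ideal R := P.comap (algebraMap R R[X]) with hp
  have : p.IsPrime := Ideal.comap_isPrime _ _
  have h0 := h p inferInstance
  have hp' : (p.map (C : R →+* R[X])).IsPrime := Ideal.isPrime_map_C_of_isPrime
  have : (p.map (C : R →+* R[X])).LiesOver p := ⟨by
    ext a
    change a ∈ p ↔ C a ∈ p.map (C : R →+* R[X])
    rw [Ideal.mem_map_C_iff]
    constructor
    · intro ha m
      rw [coeff_C]
      split_ifs
      · exact ha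
      · exact zero_mem _
    · intro ha
      simpa using ha 0⟩
  have h1 : p.height ≤ (p.map (C : R →+* R[X])).height := by
    rw [Ideal.height_eq_height_add_of_liesOver_of_hasGoingDown p (p.map (C : R →+* R[X]))]
    exact le_self_add
  have hle : p.map (C : R →+* R[X]) ≤ P := Ideal.map_le_iff_le_comap.mpr le_rfl
  rcases hle.eq_or_lt with heq | hlt
  · have h2 : ringKrullDim (R ⧸ p) + 1 ≤ ringKrullDim (R[X] ⧸ P) := by
      rw [← heq, ← ringKrullDim_eq_of_ringEquiv (p.polynomialQuotientEquivQuotientPolynomial)]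
      exact ringKrullDim_succ_le_ringKrullDim_polynomial
    rw [heq] at h1
    calc ((n + 1 : ℕ) : WithBot ℕ∞) = n + 1 := by push_cast; rfl
      _ ≤ p.height + ringKrullDim (R ⧸ p) + 1 := by gcongr
      _ = p.height + (ringKrullDim (R ⧸ p) + 1) := add_assoc _ _ _
      _ ≤ _ := add_le_add (by exact_mod_cast h1) h2
  · have h2 : p.height + 1 ≤ P.height :=
      (add_le_add_left h1 1).trans (Ideal.height_add_one_le_of_lt_of_isPrime hlt)
    have h3 : ringKrullDim (R ⧸ p) ≤ ringKrullDim (R[X] ⧸ P) := by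
      refine dim_le_of_injective (k := k)
        (Ideal.quotientMapₐ P (IsScalarTower.toAlgHom k R R[X]) le_rfl) ?_
      exact Ideal.quotientMap_injective
    calc ((n + 1 : ℕ) : WithBot ℕ∞) = n + 1 := by push_cast; rfl
      _ ≤ p.height + ringKrullDim (R ⧸ p) + 1 := by gcongr
      _ = ((p.height + 1 : ℕ∞) : WithBot ℕ∞) + ringKrullDim (R ⧸ p) := by
        push_cast
        exact add_right_comm _ _ _
      _ ≤ _ := add_le_add (by exact_mod_cast h2) h3

/-- the dimension formula in a polynomial ring over a field -/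
theorem le_height_add_dim (k : Type u) [Field k] (n : ℕ) :
    ∀ P : Ideal (MvPolynomial (Fin n) k), P.IsPrime →
      (n : WithBot ℕ∞) ≤ P.height + ringKrullDim (MvPolynomial (Fin n) k ⧸ P) := by
  induction n with
  | zero =>
    intro P hP
    have h1 : (0 : WithBot ℕ∞) ≤ P.height := by exact_mod_cast zero_le
    simpa using add_nonneg h1 (ringKrullDim_nonneg_of_nontrivial (R := MvPolynomial (Fin 0) k ⧸ P))
  | succ n ih =>
    intro P hP
    let e := (MvPolynomial.finSuccEquiv k n).toRingEquiv
    have h1 := height_add_dim_step (k := k) ih (P.map e) (Ideal.map_isPrime_of_equiv e)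
    rwa [RingEquiv.height_map, ← ringKrullDim_eq_of_ringEquiv
      (Ideal.quotientEquiv P (P.map e) e rfl)] at h1

end Pool.Agent.Lib.helper6
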