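import Pool.Agent.Lib.helper6.JInv

open UpperHalfPlane Complex Function Filter Topology PowerSeries ModularForm Matrix
open scoped Real Manifold MatrixGroups

namespace Pool.Agent.Lib.helper6

open Pool.Agent.Lib.MP_0704bf_ag

/-- the map `τ ↦ (a τ + b) / d` -/
noncomputable def tri (a b d : ℤ) (ha : 0 < a) (hd : 0 < d) (τ : ℍ) : ℍ :=
  UpperHalfPlane.mk (((a : ℂ) * τ + b) / d) (by
    have h1 : (0 : ℝ) < a := by exact_mod_cast ha
    have h2 : (0 : ℝ) < d := by exact_mod_cast hd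
    have h3 := τ.im_pos
    rw [show (d : ℂ) = ((d : ℝ) : ℂ) by simp, Complex.div_ofReal_im]
    simp only [add_im, mul_im, intCast_re, intCast_im, coe_im, zero_mul, add_zero]
    positivity)

/-- the functions `j ∘ A` with `A` integral of determinant `N` -/
def SN (N : ℕ) : Set (ℍ → ℂ) :=
  {f | ∃ (g : GL (Fin 2) ℝ) (A : Matrix (Fin 2) (Fin 2) ℤ), A.det = N ∧
    g.val = A.map (Int.castRingHom ℝ) ∧ f = fun τ ↦ jInv (g • τ)}

lemma val_coe_SL (γ : SL(2, ℤ)) :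
    (γ : GL (Fin 2) ℝ).val = γ.val.map (Int.castRingHom ℝ) := rfl

lemma det_of_val {g : GL (Fin 2) ℝ} {A : Matrix (Fin 2) (Fin 2) ℤ}
    (h : g.val = A.map (Int.castRingHom ℝ)) : g.det.val = (A.det : ℝ) := by
  rw [GeneralLinearGroup.val_det_apply, h]
  exact ((Int.castRingHom ℝ).map_det A).symm

lemma SN.tri {N : ℕ} (hN : 0 < N) {f : ℍ → ℂ} (hf : f ∈ SN N) :
    ∃ (a b d : ℤ) (ha : 0 < a) (hd : 0 < d), 0 ≤ b ∧ b < d ∧ a * d = N ∧
      f = jInv ∘ tri a b d ha hd := by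
  obtain ⟨g, A, hA, hg, rfl⟩ := hf
  have hN' : (N : ℤ) ≠ 0 := by exact_mod_cast hN.ne'
  let C : FixedDetMatrix (Fin 2) ℤ N → Prop := fun B ↦ ∀ g : GL (Fin 2) ℝ,
    g.val = B.1.map (Int.castRingHom ℝ) →
    ∃ (a b d : ℤ) (ha : 0 < a) (hd : 0 < d), 0 ≤ b ∧ b < d ∧ a * d = N ∧
      (fun τ ↦ jInv (g • τ)) = jInv ∘ Pool.Agent.Lib.helper6.tri a b d ha hd
  have step : ∀ (γ : SL(2, ℤ)) B, C B → C (γ • B) := by
    intro γ B hB g hg
    have h1 : (((γ : GL (Fin 2) ℝ))⁻¹ * g).val = B.1.map (Int.castRingHom ℝ) := by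
      rw [Units.val_mul, hg, FixedDetMatrices.smul_coe, Matrix.map_mul, ← val_coe_SL,
        ← Matrix.mul_assoc, ← Units.val_mul, inv_mul_cancel, Units.val_one, Matrix.one_mul]
    obtain ⟨a, b, d, ha, hd, h2, h3, h4, h5⟩ := hB _ h1
    refine ⟨a, b, d, ha, hd, h2, h3, h4, ?_⟩
    rw [← h5]
    funext τ
    rw [← jInv_smul γ ((((γ : GL (Fin 2) ℝ))⁻¹ * g) • τ), ModularGroup.sl_moeb, ← mul_smul,
      mul_inv_cancel_left]
  suffices C ⟨A, hA⟩ from this g hg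
  refine FixedDetMatrices.induction_on (C := C) hN' ?_ (step _) (step _)
  intro B h0 h1 h2 h3 g hg
  have hdet : B.1 0 0 * B.1 1 1 = N := by
    have := B.2
    rw [Matrix.det_fin_two, h0] at this
    simpa using this
  have hd : 0 < B.1 1 1 := by
    have : (0 : ℤ) < N := by exact_mod_cast hN
    rw [← hdet] at this
    exact (pos_iff_pos_of_mul_pos this).mp h1
  refine ⟨B.1 0 0, B.1 0 1, B.1 1 1, h1, hd, h2, ?_, hdet, ?_⟩
  · rwa [abs_of_nonneg h2, abs_of_pos hd] at h3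
  · funext τ
    simp only [Function.comp_apply]
    congr 1
    have hpos : 0 < g.det.val := by
      rw [det_of_val hg, B.2]
      exact_mod_cast hN
    ext
    rw [coe_smul_of_det_pos hpos]
    simp [num, denom, hg, h0, Pool.Agent.Lib.helper6.tri]

lemma SN.finite {N : ℕ} (hN : 0 < N) : (SN N).Finite := by
  classical
  let F : ℤ × ℤ × ℤ → ℍ → ℂ := fun t ↦
    if h : 0 < t.1 ∧ 0 < t.2.2 then jInv ∘ Pool.Agent.Lib.helper6.tri t.1 t.2.1 t.2.2 h.1 h.2
    else 0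
  refine ((Set.finite_Icc ((0, 0, 0) : ℤ × ℤ × ℤ) (N, N, N)).image F).subset fun f hf ↦ ?_
  obtain ⟨a, b, d, ha, hd, h1, h2, h3, rfl⟩ := SN.tri hN hf
  refine ⟨(a, b, d), ?_, by simp [F, ha, hd]⟩
  have h4 : a ≤ N := by nlinarith
  have h5 : d ≤ N := by nlinarith
  simp only [Set.mem_Icc, Prod.mk_le_mk]
  omega

lemma SN.comp {N : ℕ} {f : ℍ → ℂ} (hf : f ∈ SN N) (γ : SL(2, ℤ)) :
    (fun τ ↦ f (γ • τ)) ∈ SN N := by
  obtain ⟨g, A, hA, hg, rfl⟩ := hf
  refine ⟨g * (γ : GL (Fin 2) ℝ), A * γ.val, ?_, ?_, ?_⟩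
  · rw [Matrix.det_mul, hA, γ.2, mul_one]
  · rw [Units.val_mul, hg, val_coe_SL, Matrix.map_mul]
  · funext τ
    rw [mul_smul, ModularGroup.sl_moeb]

lemma SN.prod_inv {N : ℕ} (hN : 0 < N) {M : Type*} [CommMonoid M] (F : ℂ → M) (γ : SL(2, ℤ))
    (τ : ℍ) : ∏ f ∈ (SN.finite hN).toFinset, F (f (γ • τ)) =
      ∏ f ∈ (SN.finite hN).toFinset, F (f τ) := by
  refine Finset.prod_nbij' (fun f τ ↦ f (γ • τ)) (fun f τ ↦ f (γ⁻¹ • τ)) ?_ ?_ ?_ ?_ ?_
  · intro f hf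
    simpa using SN.comp (by simpa using hf) γ
  · intro f hf
    simpa using SN.comp (by simpa using hf) γ⁻¹
  · intro f _
    funext τ
    simp only [smul_inv_smul]
  · intro f _
    funext τ
    simp only [inv_smul_smul]
  · intro f _
    rfl

lemma HasExp.shift {h : ℝ} {φ : ℍ → ℂ} {P : ℂ⟦X⟧} {M : ℕ} (hP : HasExp h (qq h ^ M * φ) P)
    (k : ℕ) : HasExp h (qq h ^ (k + M) * φ) (X ^ k * P) := by
  have := ((hasExp_qq h).pow k).mul hP
  rwa [← mul_assoc, ← pow_add] at this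

/-- functions with an integral Laurent expansion -/
def laur (h : ℝ) : Subring (ℍ → ℂ) where
  carrier := {φ | ∃ (M : ℕ) (P : ℂ⟦X⟧), HasExp h (qq h ^ M * φ) P ∧ IntS P}
  mul_mem' := by
    rintro φ ψ ⟨M, P, h1, h2⟩ ⟨M', P', h1', h2'⟩
    refine ⟨M + M', P * P', ?_, h2.mul h2'⟩
    have := h1.mul h1'
    rwa [show qq h ^ M * φ * (qq h ^ M' * ψ) = qq h ^ (M + M') * (φ * ψ) by ring] at this
  one_mem' := ⟨0, 1, by simpa using hasExp_one h, intS_one⟩
  add_mem' := by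
    rintro φ ψ ⟨M, P, h1, h2⟩ ⟨M', P', h1', h2'⟩
    refine ⟨M + M', X ^ M' * P + X ^ M * P', ?_,
      ((intS_X.pow _).mul h2).add ((intS_X.pow _).mul h2')⟩
    have := (h1.shift M').add (h1'.shift M)
    rwa [show qq h ^ (M' + M) * φ + qq h ^ (M + M') * ψ = qq h ^ (M + M') * (φ + ψ) by ring]
      at this
  zero_mem' := ⟨0, 0, by simpa using hasExp_zero h, intS_zero⟩
  neg_mem' := by
    rintro φ ⟨M, P, h1, h2⟩
    exact ⟨M, -P, by simpa using h1.neg, h2.neg⟩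

/-- integral Laurent expansion of order `M` with a unit as leading coefficient -/
def Lead (h : ℝ) (M : ℕ) (φ : ℍ → ℂ) : Prop :=
  ∃ P : ℂ⟦X⟧, HasExp h (qq h ^ M * φ) P ∧ IntS P ∧ ∃ v, IsIntegral ℤ v ∧ coeff 0 P * v = 1

lemma Lead.mul {h : ℝ} {M M' : ℕ} {φ ψ : ℍ → ℂ} (h1 : Lead h M φ) (h2 : Lead h M' ψ) :
    Lead h (M + M') (φ * ψ) := by
  obtain ⟨P, hP, hI, v, hv, hv'⟩ := h1
  obtain ⟨P', hP', hI', v', hw, hw'⟩ := h2
  refine ⟨P * P', ?_, hI.mul hI', v * v', hv.mul hw, ?_⟩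
  · have := hP.mul hP'
    rwa [show qq h ^ M * φ * (qq h ^ M' * ψ) = qq h ^ (M + M') * (φ * ψ) by ring] at this
  · simp only [coeff_zero_eq_constantCoeff, map_mul] at hv' hw' ⊢
    linear_combination (constantCoeff P' * v') * hv' + hw'

lemma lead_one (h : ℝ) : Lead h 0 1 :=
  ⟨1, by simpa using hasExp_one h, intS_one, 1, isIntegral_one, by simp⟩

lemma Lead.pow {h : ℝ} {M : ℕ} {φ : ℍ → ℂ} (h1 : Lead h M φ) (k : ℕ) :
    Lead h (k * M) (φ ^ k) := by
  induction k with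
  | zero => simpa using lead_one h
  | succ k ih => simpa [pow_succ, add_mul] using ih.mul h1

lemma Lead.neg {h : ℝ} {M : ℕ} {φ : ℍ → ℂ} (h1 : Lead h M φ) : Lead h M (-φ) := by
  obtain ⟨P, hP, hI, v, hv, hv'⟩ := h1
  exact ⟨-P, by simpa using hP.neg, hI.neg, -v, hv.neg, by simpa using hv'⟩

lemma Lead.sub_of_lt {h : ℝ} {M M' : ℕ} {φ ψ : ℍ → ℂ} (h1 : Lead h M φ) (h2 : Lead h M' ψ)
    (hlt : M' < M) : Lead h M (φ - ψ) := by
  obtain ⟨P, hP, hI, v, hv, hv'⟩ := h1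
  obtain ⟨P', hP', hI', -⟩ := h2
  obtain ⟨k, rfl⟩ : ∃ k, M = (k + 1) + M' := ⟨M - M' - 1, by omega⟩
  refine ⟨P - X ^ (k + 1) * P', ?_, hI.sub ((intS_X.pow _).mul hI'), v, hv, ?_⟩
  · have := hP.sub (hP'.shift (k + 1))
    rwa [← mul_sub] at this
  · simpa using hv'

lemma Lead.sub_of_ne {h : ℝ} {M M' : ℕ} {φ ψ : ℍ → ℂ} (h1 : Lead h M φ) (h2 : Lead h M' ψ)
    (hne : M' ≠ M) : ∃ K, Lead h K (φ - ψ) := by
  rcases lt_or_gt_of_ne hne with hlt | hlt
  · exact ⟨M, h1.sub_of_lt h2 hlt⟩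
  · exact ⟨M', by simpa using (h2.sub_of_lt h1 hlt).neg⟩

lemma Lead.mem {h : ℝ} {M : ℕ} {φ : ℍ → ℂ} (h1 : Lead h M φ) : φ ∈ laur h := by
  obtain ⟨P, hP, hI, -⟩ := h1
  exact ⟨M, P, hP, hI⟩

lemma lead_comp {h' : ℝ} (s : ℍ → ℍ) (ζ : ℂ) {d : ℕ} (hd : 0 < d) (hζ : ζ ^ d = 1) {k : ℕ}
    (hk : 0 < k) (hs : ∀ τ, qq 1 (s τ) = ζ * qq h' τ ^ k) : Lead h' k (jInv ∘ s) := by
  obtain ⟨J, hJ, hJ0, hJe⟩ := exists_jS
  have hζi : IsIntegral ℤ ζ := IsIntegral.of_pow hd (hζ ▸ isIntegral_one)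
  obtain ⟨e, rfl⟩ : ∃ e, d = e + 1 := ⟨d - 1, by omega⟩
  have h1 := (hasExp_const h' (ζ ^ e)).mul (hJe.comp s ζ hk hs)
  refine ⟨C (ζ ^ e) * dil ζ k J, ?_, (intS_C (hζi.pow _)).mul (hJ.dil hζi k), ζ, hζi, ?_⟩
  · convert h1 using 1
    funext τ
    simp only [Pi.mul_apply, Pi.pow_apply, Function.comp_apply, hs]
    linear_combination (-(qq h' τ ^ k * jInv (s τ))) * hζ
  · have := coeff_dil_mul ζ hk J 0
    rw [mul_zero, hJ0] at this
    rw [coeff_C_mul, this]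
    linear_combination hζ

lemma lead_jInv {N : ℕ} (hN : 0 < N) : Lead N N jInv :=
  lead_comp id 1 one_pos (by simp) hN (qq_one_eq hN)

lemma lead_tri {N : ℕ} (a b d : ℤ) (ha : 0 < a) (hd : 0 < d) (h : a * d = N) :
    Lead N (a.toNat ^ 2) (jInv ∘ tri a b d ha hd) := by
  have hd0 : (d : ℂ) ≠ 0 := by exact_mod_cast hd.ne'
  have ha0 : (a : ℂ) ≠ 0 := by exact_mod_cast ha.ne'
  have hN : (N : ℂ) = a * d := by exact_mod_cast h.symm
  have hat : ((a.toNat : ℕ) : ℂ) = a := by exact_mod_cast Int.toNat_of_nonneg ha.le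
  have hdt : ((d.toNat : ℕ) : ℂ) = d := by exact_mod_cast Int.toNat_of_nonneg hd.le
  refine lead_comp _ (cexp (2 * π * Complex.I * b / d)) (d := d.toNat) (by omega) ?_
    (pow_pos (by omega) 2) fun τ ↦ ?_
  · rw [← Complex.exp_nat_mul, hdt, Complex.exp_eq_one_iff]
    exact ⟨b, by field_simp⟩
  · simp only [qq, Periodic.qParam, tri, ← Complex.exp_nat_mul, ← Complex.exp_add]
    congr 1
    push_cast
    rw [hat, hN]
    field_simp
    ring

lemma SN.lead {N : ℕ} (hN : 0 < N) {f : ℍ → ℂ} (hf : f ∈ SN N) : ∃ a : ℕ, Lead N (a ^ 2) f := by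
  obtain ⟨a, b, d, ha, hd, -, -, h3, rfl⟩ := SN.tri hN hf
  exact ⟨_, lead_tri a b d ha hd h3⟩

lemma Inv.poly_laur {N : ℕ} (hN : 0 < N) {φ : ℍ → ℂ} (hφ : Inv φ) (h : φ ∈ laur N) :
    ∃ p : Polynomial ℂ, (∀ i, IsIntegral ℤ (p.coeff i)) ∧ ∀ τ, φ τ = p.eval (jInv τ) := by
  obtain ⟨M, P, hP, hI⟩ := h
  have h1 := hP.shift ((N - 1) * M)
  have e : (N - 1) * M + M = N * M := by
    obtain ⟨k, rfl⟩ : ∃ k, N = k + 1 := ⟨N - 1, by omega⟩
    simp [add_mul]
  rw [e] at h1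
  obtain ⟨p, hp1, -, -, hp4⟩ := hφ.poly_level hN M h1 ((intS_X.pow _).mul hI)
  exact ⟨p, hp1, hp4⟩

/-- the modular equation -/
theorem exists_modPoly {N : ℕ} (hN : 0 < N) : ∃ Φ : Polynomial (Polynomial ℂ), Φ.Monic ∧
    (∀ k i, IsIntegral ℤ ((Φ.coeff k).coeff i)) ∧
    ∀ f ∈ SN N, ∀ τ, (Φ.map (Polynomial.evalRingHom (jInv τ))).eval (f τ) = 0 := by
  classical
  set s := (SN.finite hN).toFinset with hs
  let Ψ : Polynomial (ℍ → ℂ) := ∏ f ∈ s, (Polynomial.X - Polynomial.C f)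
  have hΨ : ∀ τ, Ψ.map (Pi.evalRingHom (fun _ ↦ ℂ) τ) =
      ∏ f ∈ s, (Polynomial.X - Polynomial.C (f τ)) := by
    intro τ
    simp [Ψ, Polynomial.map_prod]
  have hmem : ∀ k, Ψ.coeff k ∈ laur N := by
    refine Finset.prod_induction _ (fun p : Polynomial (ℍ → ℂ) ↦ ∀ k, p.coeff k ∈ laur N)
      ?_ ?_ ?_
    · intro p q hp hq k
      rw [Polynomial.coeff_mul]
      exact sum_mem fun x _ ↦ mul_mem (hp _) (hq _)
    · intro k
      rw [Polynomial.coeff_one]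
      split_ifs
      · exact one_mem _
      · exact zero_mem _
    · intro f hf k
      obtain ⟨a, ha⟩ := SN.lead hN (by simpa [hs] using hf)
      rw [Polynomial.coeff_sub, Polynomial.coeff_X, Polynomial.coeff_C]
      refine sub_mem ?_ ?_
      · split_ifs
        · exact one_mem _
        · exact zero_mem _
      · split_ifs
        · exact ha.mem
        · exact zero_mem _
  have hinv : ∀ k, Inv (Ψ.coeff k) := by
    intro k γ τ
    have h1 := congrArg (Polynomial.coeff · k) (hΨ (γ • τ))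
    have h2 := congrArg (Polynomial.coeff · k) (hΨ τ)
    simp only [Polynomial.coeff_map, Pi.evalRingHom_apply] at h1 h2
    rw [h1, h2, hs, SN.prod_inv hN (fun z ↦ Polynomial.X - Polynomial.C z) γ τ]
  choose p hp1 hp2 using fun k ↦ (hinv k).poly_laur hN (hmem k)
  refine ⟨Polynomial.X ^ s.card + ∑ k ∈ Finset.range s.card, Polynomial.C (p k) * Polynomial.X ^ k,
    ?_, ?_, ?_⟩
  · refine Polynomial.monic_X_pow_add ?_
    refine (Polynomial.degree_sum_le _ _).trans_lt ?_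
    rw [Finset.sup_lt_iff (WithBot.bot_lt_coe _)]
    intro k hk
    exact (Polynomial.degree_C_mul_X_pow_le _ _).trans_lt
      (by exact_mod_cast Finset.mem_range.mp hk)
  · intro k i
    simp only [Polynomial.coeff_add, Polynomial.coeff_X_pow, Polynomial.finsetSum_coeff,
      Polynomial.coeff_C_mul_X_pow]
    refine IsIntegral.add ?_ (IsIntegral.sum _ fun l _ ↦ ?_)
    · split_ifs
      · rw [Polynomial.coeff_one]
        split_ifs
        · exact isIntegral_one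
        · exact isIntegral_zero
      · simpa using isIntegral_zero
    · split_ifs
      · exact hp1 _ _
      · simpa using isIntegral_zero
  · intro f hf τ
    have hm : (∏ f ∈ s, (Polynomial.X - Polynomial.C (f τ))).Monic :=
      Polynomial.monic_prod_of_monic _ _ fun f _ ↦ Polynomial.monic_X_sub_C _
    have hd : (∏ f ∈ s, (Polynomial.X - Polynomial.C (f τ))).natDegree = s.card := by
      rw [Polynomial.natDegree_prod_of_monic _ _ fun f _ ↦ Polynomial.monic_X_sub_C _]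
      simp
    have h0 : (∏ f ∈ s, (Polynomial.X - Polynomial.C (f τ))).eval (f τ) = 0 := by
      rw [Polynomial.eval_prod]
      exact Finset.prod_eq_zero (i := f) (by simpa [hs] using hf) (by simp)
    rw [hm.as_sum, hd] at h0
    rw [← h0]
    congr 1
    simp only [Polynomial.map_add, Polynomial.map_pow, Polynomial.map_X, Polynomial.map_sum,
      Polynomial.map_mul, Polynomial.map_C, Polynomial.coe_evalRingHom]
    congr 1
    refine Finset.sum_congr rfl fun k _ ↦ ?_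
    rw [← hp2, ← hΨ, Polynomial.coeff_map]
    rfl

lemma isIntegral_of_fixed {N : ℕ} (hN : 0 < N) (hsq : ∀ a : ℕ, a ^ 2 ≠ N) {f : ℍ → ℂ}
    (hf : f ∈ SN N) {τ : ℍ} (hτ : f τ = jInv τ) : IsIntegral ℤ (jInv τ) := by
  classical
  set s := (SN.finite hN).toFinset with hs
  let ψ : ℍ → ℂ := ∏ f ∈ s, (jInv - f)
  have h1 : ∃ K, Lead N K ψ := by
    refine Finset.prod_induction _ (fun φ : ℍ → ℂ ↦ ∃ K, Lead N K φ) ?_ ⟨0, lead_one _⟩ ?_
    · rintro φ φ' ⟨K, hK⟩ ⟨K', hK'⟩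
      exact ⟨_, hK.mul hK'⟩
    · intro f hf
      obtain ⟨a, ha⟩ := SN.lead hN (by simpa [hs] using hf)
      exact (lead_jInv hN).sub_of_ne ha (hsq a)
  obtain ⟨K, hK⟩ := h1
  obtain ⟨P, hP, hI, v, hv, hv'⟩ := hK.pow N
  have hinv : Inv (ψ ^ N) := by
    intro γ τ
    simp only [ψ, Pi.pow_apply, Finset.prod_apply, Pi.sub_apply, jInv_smul]
    rw [hs, SN.prod_inv hN (fun z ↦ jInv τ - z) γ τ]
  obtain ⟨p, hp1, hp2, hp3, hp4⟩ := hinv.poly_level hN K hP hI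
  have h0 : p.eval (jInv τ) = 0 := by
    rw [← hp4]
    simp only [ψ, Pi.pow_apply, Finset.prod_apply, Pi.sub_apply]
    rw [Finset.prod_eq_zero (i := f) (by simpa [hs] using hf) (by simp [hτ]), zero_pow hN.ne']
  have hmon : (Polynomial.C v * p).Monic := by
    refine Polynomial.monic_of_natDegree_le_of_coeff_eq_one K
      ((Polynomial.natDegree_C_mul_le _ _).trans hp2) ?_
    rw [Polynomial.coeff_C_mul, hp3, mul_comm, hv']
  have hl : Polynomial.C v * p ∈ Polynomial.lifts (algebraMap (integralClosure ℤ ℂ) ℂ) := by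
    rw [Polynomial.lifts_iff_coeff_lifts]
    intro n
    rw [Polynomial.coeff_C_mul]
    exact ⟨⟨_, hv.mul (hp1 n)⟩, rfl⟩
  obtain ⟨r, hr1, -, hr3⟩ := Polynomial.lifts_and_degree_eq_and_monic hl hmon
  have : IsIntegral (integralClosure ℤ ℂ) (jInv τ) := by
    refine ⟨r, hr3, ?_⟩
    rw [Polynomial.eval₂_eq_eval_map, hr1, Polynomial.eval_mul, h0, mul_zero]
  exact isIntegral_trans _ this

/-- singular moduli are algebraic integers -/
theorem IsCM.isIntegral {τ : ℍ} (h : IsCM τ) : IsIntegral ℤ (jInv τ) := by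
  obtain ⟨a, b, c, ha, h⟩ := h
  have him := τ.im_pos
  have h1 := congrArg Complex.im h
  have h2 := congrArg Complex.re h
  simp only [pow_two, add_im, mul_im, intCast_re, intCast_im, mul_re, coe_re, coe_im, zero_mul,
    add_zero, zero_im, add_re, sub_zero, zero_re] at h1 h2
  have ha' : (a : ℝ) ≠ 0 := by exact_mod_cast ha
  have hb : (b : ℝ) = -2 * a * τ.re := by
    have : (2 * a * τ.re + b) * τ.im = 0 := by linear_combination h1
    rcases mul_eq_zero.mp this with h3 | h3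
    · linarith
    · exact absurd h3 him.ne'
  have hm : (0 : ℤ) < 4 * a * c - b ^ 2 := by
    have : (4 * a * c - b ^ 2 : ℝ) = 4 * (a * τ.im) ^ 2 := by
      rw [hb] at h2 ⊢
      linear_combination 4 * a * h2
    have h4 : (0 : ℝ) < 4 * (a * τ.im) ^ 2 := by positivity
    rw [← this] at h4
    exact_mod_cast h4
  obtain ⟨m, hm'⟩ : ∃ m : ℕ, (m : ℤ) = 4 * a * c - b ^ 2 := ⟨_, Int.toNat_of_nonneg hm.le⟩
  have hm0 : 0 < m := by omega
  let A : Matrix (Fin 2) (Fin 2) ℤ := !![m - b, -2 * c; 2 * a, m + b]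
  have hA : A.det = ((m ^ 2 + m : ℕ) : ℤ) := by
    simp only [A, Matrix.det_fin_two_of]
    push_cast
    linear_combination -hm'
  have hA' : (A.map (Int.castRingHom ℝ)).det ≠ 0 := by
    have := (Int.castRingHom ℝ).map_det A
    rw [RingHom.mapMatrix_apply] at this
    rw [← this, hA]
    simp only [eq_intCast]
    positivity
  let g : GL (Fin 2) ℝ := GeneralLinearGroup.mkOfDetNeZero _ hA'
  have hg : g.val = A.map (Int.castRingHom ℝ) := rfl
  refine isIntegral_of_fixed (N := m ^ 2 + m) (by positivity) (fun k hk ↦ ?_)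
    ⟨g, A, hA, hg, rfl⟩ ?_
  · have h5 : m < k := by nlinarith
    nlinarith
  · congr 1
    have hpos : 0 < g.det.val := by
      rw [det_of_val hg, hA]
      positivity
    ext
    rw [coe_smul_of_det_pos hpos, div_eq_iff (denom_ne_zero g τ)]
    simp [num, denom, hg, A]
    linear_combination -2 * h

lemma mem_SN_of_rat (g : GL (Fin 2) ℚ) (hg : 0 < g.val.det) : ∃ N : ℕ, 0 < N ∧
    (fun τ : ℍ ↦ jInv (GeneralLinearGroup.map (Rat.castHom ℝ) g • τ)) ∈ SN N := by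
  obtain ⟨D, hD⟩ := IsLocalization.exist_integer_multiples_of_finite (nonZeroDivisors ℤ)
    (fun ij : Fin 2 × Fin 2 ↦ g.val ij.1 ij.2)
  choose A hA using hD
  have hD0 : (D : ℤ) ≠ 0 := nonZeroDivisors.coe_ne_zero D
  have hD1 : ((D : ℤ) : ℝ) ≠ 0 := by exact_mod_cast hD0
  let B : Matrix (Fin 2) (Fin 2) ℤ := Matrix.of fun i j ↦ A (i, j)
  have hB : ∀ i j, (B i j : ℚ) = (D : ℤ) * g.val i j := by
    intro i j
    simpa [B] using hA (i, j)
  have hdet : (B.det : ℚ) = ((D : ℤ) : ℚ) ^ 2 * g.val.det := by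
    rw [Matrix.det_fin_two, Matrix.det_fin_two]
    push_cast
    simp only [hB]
    ring
  have hpos : 0 < B.det := by
    have hD2 : ((D : ℤ) : ℚ) ≠ 0 := by exact_mod_cast hD0
    have : (0 : ℚ) < B.det := by rw [hdet]; positivity
    exact_mod_cast this
  refine ⟨B.det.toNat, by omega, GeneralLinearGroup.scalar (Fin 2) (Units.mk0 _ hD1) *
    GeneralLinearGroup.map (Rat.castHom ℝ) g, B, (Int.toNat_of_nonneg hpos.le).symm, ?_, ?_⟩
  · ext i j
    have := congrArg (Rat.cast : ℚ → ℝ) (hB i j)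
    push_cast at this
    rw [Units.val_mul]
    have e : (GeneralLinearGroup.scalar (Fin 2) (Units.mk0 _ hD1)).val =
      Matrix.diagonal fun _ ↦ ((D : ℤ) : ℝ) := rfl
    rw [e, Matrix.diagonal_mul]
    simp [this]
  · funext τ
    rw [mul_smul, glScalar_smul]

/-- the `j`-invariants of two rational translates are integrally related -/
theorem exists_rel (g g' : GL (Fin 2) ℚ) (hg : 0 < g.val.det) (hg' : 0 < g'.val.det) :
    ∃ Φ : Polynomial (Polynomial ℂ), Φ.Monic ∧ (∀ k i, IsIntegral ℤ ((Φ.coeff k).coeff i)) ∧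
      ∀ τ : ℍ, (Φ.map (Polynomial.evalRingHom
        (jInv (GeneralLinearGroup.map (Rat.castHom ℝ) g' • τ)))).eval
          (jInv (GeneralLinearGroup.map (Rat.castHom ℝ) g • τ)) = 0 := by
  have h1 : 0 < (g * g'⁻¹).val.det := by
    have h2 : (g * g'⁻¹).val.det * g'.val.det = g.val.det := by
      rw [← Matrix.det_mul, ← Units.val_mul, inv_mul_cancel_right]
    rw [← h2] at hg
    exact (pos_iff_pos_of_mul_pos hg).mpr hg'
  obtain ⟨N, hN, hmem⟩ := mem_SN_of_rat _ h1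
  obtain ⟨Φ, hΦ1, hΦ2, hΦ3⟩ := exists_modPoly hN
  refine ⟨Φ, hΦ1, hΦ2, fun τ ↦ ?_⟩
  have := hΦ3 _ hmem (GeneralLinearGroup.map (Rat.castHom ℝ) g' • τ)
  rwa [← mul_smul, ← map_mul, inv_mul_cancel_right] at this

end Pool.Agent.Lib.helper6
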