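import Pool.Agent.Lib.helper6.QExp
import Pool.Agent.Lib.MP_0704bf_ag.Defs

open UpperHalfPlane Complex Function Filter Topology PowerSeries ModularForm
open scoped Real Manifold MatrixGroups ArithmeticFunction.sigma

namespace Pool.Agent.Lib.helper6

open Pool.Agent.Lib.MP_0704bf_ag

lemma hasExp_mf {k : ℤ} {F : Type*} [FunLike F ℍ ℂ] [ModularFormClass F 𝒮ℒ k] (f : F) :
    HasExp 1 f (qExpansion 1 f) :=
  have : Fact (IsCusp OnePoint.infty 𝒮ℒ) :=
    ⟨Subgroup.isCusp_of_mem_strictPeriods one_pos one_mem_strictPeriods_SL⟩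
  fun τ ↦ ModularForm.hasSum_qExpansion f one_pos one_mem_strictPeriods_SL τ

/-- the divisor sum series -/
noncomputable def sigS (k : ℕ) : ℂ⟦X⟧ := PowerSeries.mk fun m ↦ (σ k m : ℂ)

lemma intS_sigS (k : ℕ) : IntS (sigS k) := by
  intro m
  simp only [sigS, coeff_mk]
  exact isIntegral_natCast _

lemma bern4 : bernoulli 4 = -1 / 30 := by
  rw [bernoulli_eq_bernoulli'_of_ne_one (by norm_num), bernoulli'_four]

lemma bern6 : bernoulli 6 = 1 / 42 := by decide +kernel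

lemma qE4 : qExpansion 1 E₄ = 1 + C 240 * sigS 3 := by
  ext m
  rw [EisensteinSeries.E_qExpansion_coeff _ ⟨2, rfl⟩, map_add, coeff_C_mul, coeff_one, sigS,
    coeff_mk, bern4]
  split_ifs with hm
  · simp [hm]
  · push_cast; norm_num

lemma qE6 : qExpansion 1 E₆ = 1 - C 504 * sigS 5 := by
  ext m
  rw [EisensteinSeries.E_qExpansion_coeff _ ⟨3, rfl⟩, map_sub, coeff_C_mul, coeff_one, sigS,
    coeff_mk, bern6]
  split_ifs with hm
  · simp [hm]
  · push_cast; norm_num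

lemma twelve_dvd (m : ℕ) : 12 ∣ 5 * σ 3 m + 7 * σ 5 m := by
  rw [ArithmeticFunction.sigma_apply, ArithmeticFunction.sigma_apply, Finset.mul_sum,
    Finset.mul_sum, ← Finset.sum_add_distrib]
  refine Finset.dvd_sum fun d _ ↦ ?_
  rw [← ZMod.natCast_eq_zero_iff]
  push_cast
  generalize (d : ZMod 12) = x
  revert x
  decide

/-- the series `(5 σ₃ + 7 σ₅) / 12` -/
noncomputable def twS : ℂ⟦X⟧ := PowerSeries.mk fun m ↦ (((5 * σ 3 m + 7 * σ 5 m) / 12 : ℕ) : ℂ)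

lemma intS_twS : IntS twS := by
  intro m
  simp only [twS, coeff_mk]
  exact isIntegral_natCast _

lemma twS_eq : C 12 * twS = C 5 * sigS 3 + C 7 * sigS 5 := by
  ext m
  simp only [coeff_C_mul, map_add, twS, sigS, coeff_mk]
  obtain ⟨c, hc⟩ := twelve_dvd m
  rw [hc, Nat.mul_div_cancel_left _ (by norm_num)]
  exact_mod_cast hc.symm

/-- the expansion of the discriminant -/
noncomputable def delS : ℂ⟦X⟧ :=
  twS + C 100 * sigS 3 ^ 2 + C 8000 * sigS 3 ^ 3 - C 147 * sigS 5 ^ 2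

lemma intS_delS : IntS delS := by
  have h (n : ℕ) : IntS (C (n : ℂ)) := intS_C (isIntegral_natCast n)
  exact ((intS_twS.add ((h 100).mul ((intS_sigS 3).pow 2))).add
    ((h 8000).mul ((intS_sigS 3).pow 3))).sub ((h 147).mul ((intS_sigS 5).pow 2))

lemma hasExp_disc : HasExp 1 discriminant delS := by
  have h4 := hasExp_mf E₄
  have h6 := hasExp_mf E₆
  rw [qE4] at h4
  rw [qE6] at h6
  have h := (hasExp_const 1 (1 / 1728)).mul ((h4.pow 3).sub (h6.pow 2))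
  have e1 : ((fun _ ↦ (1 / 1728 : ℂ)) * (⇑E₄ ^ 3 - ⇑E₆ ^ 2) : ℍ → ℂ) = discriminant := by
    funext τ
    simp only [Pi.mul_apply, Pi.sub_apply, Pi.pow_apply, discriminant_eq_E₄_cube_sub_E₆_sq]
    ring
  have e2 : C (1 / 1728 : ℂ) * ((1 + C 240 * sigS 3) ^ 3 - (1 - C 504 * sigS 5) ^ 2) = delS := by
    have h1 : (C (1 / 1728 : ℂ) : ℂ⟦X⟧) * 1728 = 1 := by
      rw [show (1728 : ℂ⟦X⟧) = C (1728 : ℂ) from (map_ofNat C 1728).symm, ← map_mul]
      norm_num
    have h2 := twS_eq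
    simp only [map_ofNat] at h2 ⊢
    unfold delS
    simp only [map_ofNat]
    linear_combination (-144 * C (1 / 1728 : ℂ)) * h2 +
      (twS + 100 * sigS 3 ^ 2 + 8000 * sigS 3 ^ 3 - 147 * sigS 5 ^ 2) * h1
  rwa [e1, e2] at h

lemma delS_eq : delS = qExpansion 1 discriminant :=
  hasExp_disc.unique one_pos (hasExp_mf CuspForm.discriminant)

lemma exists_unitS : ∃ U : ℂ⟦X⟧, IntS U ∧ coeff 0 U = 1 ∧
    HasExp 1 (fun τ ↦ discriminant τ / qq 1 τ) U := by
  have h0 : coeff 0 delS = 0 := by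
    rw [delS_eq]
    exact CuspFormClass.qExpansion_coeff_zero CuspForm.discriminant one_pos
      one_mem_strictPeriods_SL
  obtain ⟨U, hU⟩ : X ∣ delS := by
    rw [X_dvd_iff]; simpa using h0
  refine ⟨U, IntS.of_X_mul (hU ▸ intS_delS), ?_, HasExp.of_X_mul ?_⟩
  · have := discriminant_qExpansion_coeff_one
    rwa [← delS_eq, hU, coeff_succ_X_mul] at this
  · have e : (qq 1 * fun τ ↦ discriminant τ / qq 1 τ) = discriminant := by
      funext τ
      have := qq_ne_zero 1 τ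
      simp only [Pi.mul_apply]
      field_simp
    rw [e, ← hU]
    exact hasExp_disc

lemma jInv_smul (γ : SL(2, ℤ)) (τ : ℍ) : jInv (γ • τ) = jInv τ := by
  have hγ : (γ : GL (Fin 2) ℝ) ∈ 𝒮ℒ := ⟨γ, rfl⟩
  have h4 := SlashInvariantForm.slash_action_eqn'' E₄ hγ τ
  have h12 := SlashInvariantForm.slash_action_eqn'' CuspForm.discriminant hγ τ
  have hd := denom_ne_zero (γ : GL (Fin 2) ℝ) τ
  have hΔ := discriminant_ne_zero τ
  rw [CuspForm.coe_discriminant] at h12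
  unfold jInv
  rw [ModularGroup.sl_moeb, h4, h12]
  field_simp

lemma mdiff_jInv : MDiff jInv := by
  have h4 : MDiff (E₄ : ℍ → ℂ) := ModularFormClass.holo E₄
  have h12 : MDiff (discriminant : ℍ → ℂ) := ModularFormClass.holo CuspForm.discriminant
  exact (h4.pow 3).div h12 discriminant_ne_zero

/-- invariance under the modular group -/
def Inv (φ : ℍ → ℂ) : Prop := ∀ (γ : SL(2, ℤ)) (τ : ℍ), φ (γ • τ) = φ τ

lemma periodic_of_T {φ : ℍ → ℂ} (h : ∀ τ : ℍ, φ ((1 : ℝ) +ᵥ τ) = φ τ) :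
    Periodic (φ ∘ ofComplex) (1 : ℝ) := by
  intro w
  by_cases! hw : 0 < im w
  · have : 0 < im (w + (1 : ℝ)) := by simp [hw]
    simp only [comp_apply, ofComplex_apply_of_im_pos this, ofComplex_apply_of_im_pos hw]
    rw [← h ⟨w, hw⟩]
    congr 1
    ext
    simp [add_comm]
  · have : im (w + (1 : ℝ)) ≤ 0 := by simpa using hw
    simp only [comp_apply, ofComplex_apply_of_im_nonpos this, ofComplex_apply_of_im_nonpos hw]

lemma qq_vadd (τ : ℍ) : qq 1 ((1 : ℝ) +ᵥ τ) = qq 1 τ := by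
  simp only [qq, Periodic.qParam, coe_vadd]
  rw [Complex.exp_eq_exp_iff_exists_int]
  exact ⟨1, by push_cast; ring⟩

lemma Inv.vadd {φ : ℍ → ℂ} (h : Inv φ) (τ : ℍ) : φ ((1 : ℝ) +ᵥ τ) = φ τ := by
  rw [← modular_T_smul, h]

lemma exists_jS : ∃ J : ℂ⟦X⟧, IntS J ∧ coeff 0 J = 1 ∧ HasExp 1 (qq 1 * jInv) J := by
  obtain ⟨U, hU, hU0, hUe⟩ := exists_unitS
  have h4 := hasExp_mf E₄
  rw [qE4] at h4
  have h40 : coeff 0 (1 + C 240 * sigS 3 : ℂ⟦X⟧) = 1 := by simp [sigS]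
  have e : (qq 1 * jInv) * (fun τ ↦ discriminant τ / qq 1 τ) = ⇑E₄ ^ 3 := by
    funext τ
    have := qq_ne_zero 1 τ
    have := discriminant_ne_zero τ
    simp only [Pi.mul_apply, jInv, Pi.pow_apply]
    field_simp
  have e' : (qq 1 * jInv) = fun τ ↦ (⇑E₄ ^ 3) τ / (discriminant τ / qq 1 τ) := by
    funext τ
    have := qq_ne_zero 1 τ
    have := discriminant_ne_zero τ
    simp only [Pi.mul_apply, jInv, Pi.pow_apply]
    field_simp
  have hb : IsBoundedAtImInfty (qq 1 * jInv) := by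
    rw [e']
    have := ((h4.pow 3).tendsto one_pos).div (hUe.tendsto one_pos) (by rw [hU0]; exact one_ne_zero)
    exact this.isBigO_one ℝ
  have hJ := hasExp_qExpansion one_pos (f := qq 1 * jInv) (periodic_of_T fun τ ↦ by
    simp only [Pi.mul_apply, qq_vadd, Inv.vadd jInv_smul]) ((mdiff_qq 1).mul mdiff_jInv) hb
  have hm := hJ.mul hUe
  rw [e] at hm
  have heq := hm.unique one_pos (h4.pow 3)
  have hi : IntS (1 + C 240 * sigS 3 : ℂ⟦X⟧) :=
    intS_one.add ((intS_C (isIntegral_natCast 240)).mul (intS_sigS 3))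
  refine ⟨_, IntS.of_mul_eq hU hU0 (hi.pow 3) heq, ?_, hJ⟩
  have := congrArg (coeff 0) heq
  simp only [coeff_zero_eq_constantCoeff, map_mul, map_pow] at this hU0 h40 ⊢
  rw [hU0, h40] at this
  simpa using this

lemma Inv.const {φ : ℍ → ℂ} (h : Inv φ) {Q : ℂ⟦X⟧} (hQ : HasExp 1 φ Q) (τ : ℍ) :
    φ τ = coeff 0 Q := by
  have hsl : ∀ γ : SL(2, ℤ), φ ∣[(0 : ℤ)] γ = φ := by
    intro γ
    funext z
    rw [SL_slash_apply, h]
    simp
  let F : ModularForm 𝒮ℒ 0 :=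
    { toFun := φ
      slash_action_eq' := by
        rintro A ⟨γ, rfl⟩
        exact hsl γ
      holo' := hQ.mdiff one_pos
      bdd_at_cusps' := fun hc ↦ by
        rw [Subgroup.IsArithmetic.isCusp_iff_isCusp_SL2Z] at hc
        rw [OnePoint.isBoundedAt_iff_forall_SL2Z hc]
        intro γ _
        rw [hsl]
        exact hQ.bdd one_pos }
  obtain ⟨c, hc⟩ := ModularFormClass.levelOne_weight_zero_const F
  have hφ : φ = fun _ ↦ c := hc
  have := tendsto_nhds_unique (hQ.tendsto one_pos) (hφ ▸ tendsto_const_nhds)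
  rw [this, hφ]

/-- an invariant function with an integral Laurent expansion is an integral polynomial in `j` -/
lemma Inv.poly (M : ℕ) : ∀ {φ : ℍ → ℂ} (_ : Inv φ) {Q : ℂ⟦X⟧}
    (_ : HasExp 1 (qq 1 ^ M * φ) Q) (_ : IntS Q),
    ∃ p : Polynomial ℂ, (∀ i, IsIntegral ℤ (p.coeff i)) ∧ p.natDegree ≤ M ∧
      p.coeff M = coeff 0 Q ∧ ∀ τ, φ τ = p.eval (jInv τ) := by
  induction M with
  | zero =>
    intro φ hφ Q hQ hI
    rw [pow_zero, one_mul] at hQ
    refine ⟨Polynomial.C (coeff 0 Q), fun i ↦ ?_, by simp, by simp, fun τ ↦ ?_⟩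
    · rw [Polynomial.coeff_C]
      split_ifs
      · exact hI 0
      · exact isIntegral_zero
    · simp [hφ.const hQ τ]
  | succ M ih =>
    intro φ hφ Q hQ hI
    obtain ⟨J, hJ, hJ0, hJe⟩ := exists_jS
    set c := coeff 0 Q with hc
    have h1 := hQ.sub ((hasExp_const 1 c).mul (hJe.pow (M + 1)))
    obtain ⟨Q', hQ'⟩ : X ∣ Q - C c * J ^ (M + 1) := by
      rw [X_dvd_iff]
      simp only [coeff_zero_eq_constantCoeff] at hJ0 hc
      simp [hJ0, hc]
    have hI' : IntS Q' := IntS.of_X_mul (hQ' ▸ hI.sub ((intS_C (hI 0)).mul (hJ.pow _)))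
    have e : (qq 1 ^ (M + 1) * φ - (fun _ ↦ c) * (qq 1 * jInv) ^ (M + 1)) =
        qq 1 * (qq 1 ^ M * (φ - (fun _ ↦ c) * jInv ^ (M + 1))) := by ring
    rw [e, hQ'] at h1
    have hinv : Inv (φ - (fun _ ↦ c) * jInv ^ (M + 1)) := by
      intro γ τ
      simp only [Pi.sub_apply, Pi.mul_apply, Pi.pow_apply, hφ γ τ, jInv_smul]
    obtain ⟨p, hp1, hp2, -, hp4⟩ := ih hinv h1.of_X_mul hI'
    refine ⟨p + Polynomial.monomial (M + 1) c, fun i ↦ ?_, ?_, ?_, fun τ ↦ ?_⟩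
    · rw [Polynomial.coeff_add, Polynomial.coeff_monomial]
      split_ifs
      · exact (hp1 i).add (hI 0)
      · simpa using hp1 i
    · exact (Polynomial.natDegree_add_le _ _).trans
        (max_le (by omega) (Polynomial.natDegree_monomial_le _))
    · rw [Polynomial.coeff_add, Polynomial.coeff_eq_zero_of_natDegree_lt (by omega)]
      simp
    · have := hp4 τ
      simp only [Pi.sub_apply, Pi.mul_apply, Pi.pow_apply] at this
      rw [Polynomial.eval_add, Polynomial.eval_monomial, ← this]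
      ring

lemma qq_one_eq {N : ℕ} (hN : 0 < N) (τ : ℍ) : qq 1 τ = 1 * qq N τ ^ N := by
  have : (N : ℂ) ≠ 0 := by exact_mod_cast hN.ne'
  simp only [qq, Periodic.qParam, one_mul, ← Complex.exp_nat_mul]
  congr 1
  push_cast
  field_simp

/-- the same at level `N` -/
lemma Inv.poly_level {N : ℕ} (hN : 0 < N) (M : ℕ) {φ : ℍ → ℂ} (hφ : Inv φ) {P : ℂ⟦X⟧}
    (hP : HasExp N (qq N ^ (N * M) * φ) P) (hI : IntS P) :
    ∃ p : Polynomial ℂ, (∀ i, IsIntegral ℤ (p.coeff i)) ∧ p.natDegree ≤ M ∧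
      p.coeff M = coeff 0 P ∧ ∀ τ, φ τ = p.eval (jInv τ) := by
  have hN' : (0 : ℝ) < N := by exact_mod_cast hN
  have e : qq N ^ (N * M) * φ = qq 1 ^ M * φ := by
    funext τ
    simp [qq_one_eq hN τ, pow_mul]
  rw [e] at hP
  have hQ := hasExp_qExpansion one_pos (f := qq 1 ^ M * φ) (periodic_of_T fun τ ↦ by
    simp only [Pi.mul_apply, Pi.pow_apply, qq_vadd, hφ.vadd]) (hP.mdiff hN') (hP.bdd hN')
  have h2 := hQ.comp (h' := N) id 1 hN (qq_one_eq hN)
  have h3 := hP.unique hN' h2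
  have h4 : ∀ m, coeff m (qExpansion 1 (qq 1 ^ M * φ)) = coeff (N * m) P := by
    intro m
    rw [h3, coeff_dil_mul _ hN, one_pow, mul_one]
  obtain ⟨p, hp1, hp2, hp3, hp4⟩ := Inv.poly M hφ hQ (fun m ↦ h4 m ▸ hI _)
  exact ⟨p, hp1, hp2, by rw [hp3, h4, mul_zero], hp4⟩

lemma range_jInv_infinite : (Set.range jInv).Infinite := by
  intro hfin
  obtain ⟨J, -, hJ0, hJe⟩ := exists_jS
  have h1 := hJe.tendsto one_pos
  rw [hJ0] at h1
  obtain ⟨B, hB⟩ := hfin.isBounded.exists_norm_le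
  have h2 : Tendsto (qq 1 * jInv) atImInfty (𝓝 0) := by
    refine Filter.Tendsto.zero_mul_isBoundedUnder_le (qParam_tendsto_atImInfty one_pos) ?_
    exact Filter.isBoundedUnder_of ⟨B, fun τ ↦ hB _ ⟨τ, rfl⟩⟩
  exact one_ne_zero (tendsto_nhds_unique h1 h2)

end Pool.Agent.Lib.helper6
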