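import Mathlib

open UpperHalfPlane Complex Function Filter Topology PowerSeries
open scoped Real Manifold

namespace Pool.Agent.Lib.helper6

/-- the local parameter `exp (2 π i τ / h)` -/
noncomputable abbrev qq (h : ℝ) (τ : ℍ) : ℂ := Periodic.qParam h (τ : ℂ)

/-- `f` is the sum of the power series `P` in the parameter `qq h` -/
def HasExp (h : ℝ) (f : ℍ → ℂ) (P : ℂ⟦X⟧) : Prop :=
  ∀ τ : ℍ, HasSum (fun m : ℕ ↦ coeff m P * qq h τ ^ m) (f τ)

variable {h : ℝ} {f g : ℍ → ℂ} {P Q : ℂ⟦X⟧}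

lemma qq_ne_zero (h : ℝ) (τ : ℍ) : qq h τ ≠ 0 := Periodic.qParam_ne_zero _

lemma hasSum_cg {u v : ℕ → ℂ} {a b : ℂ} (H : HasSum u a) (h1 : ∀ m, v m = u m) (h2 : b = a) :
    HasSum v b := by
  rw [h2, funext h1]
  exact H

lemma enorm_lt_one_of {z : ℂ} (hz : ‖z‖ < 1) : z ∈ Metric.eball (0 : ℂ) 1 := by
  rw [← ENNReal.coe_one, Metric.eball_coe, NNReal.coe_one, mem_ball_zero_iff]
  exact hz

lemma HasExp.add (hf : HasExp h f P) (hg : HasExp h g Q) : HasExp h (f + g) (P + Q) := by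
  intro τ
  simpa [add_mul] using (hf τ).add (hg τ)

lemma HasExp.neg (hf : HasExp h f P) : HasExp h (-f) (-P) := by
  intro τ
  simpa using (hf τ).neg

lemma HasExp.sub (hf : HasExp h f P) (hg : HasExp h g Q) : HasExp h (f - g) (P - Q) := by
  simpa [sub_eq_add_neg] using hf.add hg.neg

lemma hasExp_const (h : ℝ) (c : ℂ) : HasExp h (fun _ ↦ c) (C c) := by
  intro τ
  have := hasSum_single (f := fun m : ℕ ↦ coeff m (C c) * qq h τ ^ m) 0 (by
    intro b hb
    simp [coeff_C, hb])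
  simpa using this

lemma hasExp_one (h : ℝ) : HasExp h 1 1 := by
  have := hasExp_const h 1
  rwa [map_one] at this

lemma hasExp_zero (h : ℝ) : HasExp h 0 0 := by
  have := hasExp_const h 0
  rwa [map_zero] at this

lemma HasExp.mul (hf : HasExp h f P) (hg : HasExp h g Q) : HasExp h (f * g) (P * Q) := by
  intro τ
  have h1 := (hf τ).summable.norm
  have h2 := (hg τ).summable.norm
  have h3 := (summable_norm_sum_mul_antidiagonal_of_summable_norm h1 h2).of_norm.hasSum
  rw [← tsum_mul_tsum_eq_tsum_sum_antidiagonal_of_summable_norm h1 h2, (hf τ).tsum_eq,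
    (hg τ).tsum_eq] at h3
  refine hasSum_cg h3 (fun m ↦ ?_) rfl
  rw [coeff_mul, Finset.sum_mul]
  refine Finset.sum_congr rfl fun x hx ↦ ?_
  rw [← Finset.HasAntidiagonal.mem_antidiagonal.mp hx, pow_add]
  ring

lemma HasExp.pow (hf : HasExp h f P) (k : ℕ) : HasExp h (f ^ k) (P ^ k) := by
  induction k with
  | zero => simpa using hasExp_one h
  | succ k ih => simpa [pow_succ] using ih.mul hf

lemma hasExp_qq (h : ℝ) : HasExp h (qq h) X := by
  intro τ
  have := hasSum_single (f := fun m : ℕ ↦ coeff m (X : ℂ⟦X⟧) * qq h τ ^ m) 1 (by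
    intro b hb
    simp [coeff_X, hb])
  simpa using this

lemma HasExp.of_X_mul (hf : HasExp h (qq h * f) (X * P)) : HasExp h f P := by
  intro τ
  have h1 := (hasSum_nat_add_iff' 1).mpr (hf τ)
  have h2 := h1.mul_left (qq h τ)⁻¹
  have hq := qq_ne_zero h τ
  refine hasSum_cg h2 (fun m ↦ ?_) ?_
  · rw [coeff_succ_X_mul]
    field_simp
    ring
  · simp
    field_simp

lemma HasExp.summable_ball (hh : 0 < h) (hf : HasExp h f P) :
    HasFPowerSeriesOnBall (FormalMultilinearSeries.ofScalars ℂ (fun m ↦ coeff m P)).sum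
      (FormalMultilinearSeries.ofScalars ℂ (fun m ↦ coeff m P)) 0 1 := by
  have hr : 1 ≤ (FormalMultilinearSeries.ofScalars ℂ (fun m ↦ coeff m P)).radius := by
    refine le_of_forall_lt_imp_le_of_dense fun r hr ↦ ?_
    rcases eq_or_ne r 0 with rfl | hr'
    · simp
    · lift r to NNReal using hr.ne_top
      apply FormalMultilinearSeries.le_radius_of_summable
      have hr1 : ‖(r : ℂ)‖ < 1 := by simpa using hr
      have hr0 : (r : ℂ) ≠ 0 := mod_cast hr'
      have h1 := Periodic.im_invQParam_pos_of_norm_lt_one hh hr1 hr0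
      have h2 := (hf ⟨_, h1⟩).summable.norm
      have h3 : qq h ⟨_, h1⟩ = r := Periodic.qParam_right_inv hh.ne' hr0
      rw [h3] at h2
      simpa [norm_mul] using h2
  exact ((FormalMultilinearSeries.ofScalars ℂ (fun m ↦ coeff m P)).hasFPowerSeriesOnBall
    (lt_of_lt_of_le one_pos hr)).mono one_pos hr

lemma HasExp.eq_sum (hh : 0 < h) (hf : HasExp h f P) (τ : ℍ) :
    f τ = (FormalMultilinearSeries.ofScalars ℂ (fun m ↦ coeff m P)).sum (qq h τ) := by
  have h1 := (hf.summable_ball hh).hasSum (y := qq h τ)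
    (enorm_lt_one_of (Periodic.norm_qParam_lt_one hh τ.im_pos))
  refine (hf τ).unique ?_
  simpa [mul_comm] using h1

lemma HasExp.tendsto (hh : 0 < h) (hf : HasExp h f P) :
    Tendsto f atImInfty (𝓝 (coeff 0 P)) := by
  have h1 := (hf.summable_ball hh).hasFPowerSeriesAt
  have h2 := h1.continuousAt.tendsto.comp (qParam_tendsto_atImInfty hh)
  have h3 := h1.coeff_zero (fun _ ↦ 1)
  have h4 : f = (FormalMultilinearSeries.ofScalars ℂ (fun m ↦ coeff m P)).sum ∘
      (fun τ : ℍ ↦ Periodic.qParam h τ) := by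
    funext τ
    exact hf.eq_sum hh τ
  rw [← h4, ← h3] at h2
  simpa using h2

lemma mdiff_qq (h : ℝ) : MDiff (qq h) := by
  rw [UpperHalfPlane.mdifferentiable_iff]
  refine DifferentiableOn.congr (f := fun z ↦ Periodic.qParam h z)
    (Periodic.differentiable_qParam.differentiableOn) fun z hz ↦ ?_
  simp [qq, ofComplex_apply_of_im_pos hz]

lemma HasExp.mdiff (hh : 0 < h) (hf : HasExp h f P) : MDiff f := by
  rw [UpperHalfPlane.mdifferentiable_iff]
  refine DifferentiableOn.congr (f := fun z ↦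
    (FormalMultilinearSeries.ofScalars ℂ (fun m ↦ coeff m P)).sum (Periodic.qParam h z))
    (fun z hz ↦ ?_) fun z hz ↦ ?_
  · have h1 := ((hf.summable_ball hh).analyticAt_of_mem (y := Periodic.qParam h z)
      (enorm_lt_one_of (Periodic.norm_qParam_lt_one hh hz))).differentiableAt
    exact (h1.comp z (Periodic.differentiable_qParam z)).differentiableWithinAt
  · simp [ofComplex_apply_of_im_pos hz, hf.eq_sum hh, qq]

lemma HasExp.bdd (hh : 0 < h) (hf : HasExp h f P) : IsBoundedAtImInfty f :=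
  (hf.tendsto hh).isBigO_one ℝ

lemma HasExp.eq_zero (hh : 0 < h) (hf : HasExp h 0 P) : P = 0 := by
  have key : ∀ m : ℕ, ∀ P : ℂ⟦X⟧, HasExp h 0 P → coeff m P = 0 := by
    intro m
    induction m with
    | zero =>
      intro P hP
      exact (tendsto_nhds_unique (hP.tendsto hh) tendsto_const_nhds)
    | succ m ih =>
      intro P hP
      have h0 : coeff 0 P = 0 := tendsto_nhds_unique (hP.tendsto hh) tendsto_const_nhds
      obtain ⟨Q, rfl⟩ : X ∣ P := by
        rw [X_dvd_iff]; simpa using h0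
      rw [coeff_succ_X_mul]
      exact ih Q (HasExp.of_X_mul (by simpa using hP))
  ext m
  simpa using key m P hf

lemma HasExp.unique (hh : 0 < h) (hf : HasExp h f P) (hg : HasExp h f Q) : P = Q := by
  have := (hf.sub hg)
  rw [sub_self] at this
  exact sub_eq_zero.mp (this.eq_zero hh)

lemma hasExp_qExpansion (hh : 0 < h) (hper : Periodic (f ∘ ofComplex) h) (hhol : MDiff f)
    (hbdd : IsBoundedAtImInfty f) : HasExp h f (qExpansion h f) := by
  intro τ
  simpa using hasSum_qExpansion hh hper hhol hbdd τ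

/-- the series `P (ζ X ^ k)` -/
noncomputable def dil (ζ : ℂ) (k : ℕ) (P : ℂ⟦X⟧) : ℂ⟦X⟧ :=
  PowerSeries.mk fun m ↦ if k ∣ m then coeff (m / k) P * ζ ^ (m / k) else 0

lemma coeff_dil_mul (ζ : ℂ) {k : ℕ} (hk : 0 < k) (P : ℂ⟦X⟧) (m : ℕ) :
    coeff (k * m) (dil ζ k P) = coeff m P * ζ ^ m := by
  simp [dil, Nat.mul_div_cancel_left _ hk]

lemma HasExp.comp {h' : ℝ} (hf : HasExp h f P) (s : ℍ → ℍ) (ζ : ℂ) {k : ℕ} (hk : 0 < k)
    (hs : ∀ τ, qq h (s τ) = ζ * qq h' τ ^ k) : HasExp h' (f ∘ s) (dil ζ k P) := by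
  intro τ
  have hinj : Injective fun m : ℕ ↦ k * m := mul_right_injective₀ hk.ne'
  rw [← hinj.hasSum_iff]
  · refine hasSum_cg (hf (s τ)) (fun m ↦ ?_) rfl
    simp only [comp_apply, coeff_dil_mul ζ hk, hs, mul_pow, ← pow_mul]
    ring
  · intro m hm
    have : ¬ k ∣ m := by
      rintro ⟨c, rfl⟩
      exact hm ⟨c, rfl⟩
    simp [dil, this]

/-- all coefficients are algebraic integers -/
def IntS (P : ℂ⟦X⟧) : Prop := ∀ m, IsIntegral ℤ (coeff m P)

lemma intS_iff : IntS P ↔
    P ∈ (PowerSeries.map (integralClosure ℤ ℂ).val.toRingHom).range := by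
  constructor
  · intro hP
    refine ⟨PowerSeries.mk fun m ↦ ⟨coeff m P, hP m⟩, ?_⟩
    ext m
    simp
  · rintro ⟨Q, rfl⟩ m
    rw [PowerSeries.coeff_map]
    exact (coeff m Q).2

lemma IntS.add (hP : IntS P) (hQ : IntS Q) : IntS (P + Q) :=
  intS_iff.mpr (add_mem (intS_iff.mp hP) (intS_iff.mp hQ))

lemma IntS.sub (hP : IntS P) (hQ : IntS Q) : IntS (P - Q) :=
  intS_iff.mpr (sub_mem (intS_iff.mp hP) (intS_iff.mp hQ))

lemma IntS.neg (hP : IntS P) : IntS (-P) :=
  intS_iff.mpr (neg_mem (intS_iff.mp hP))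

lemma IntS.mul (hP : IntS P) (hQ : IntS Q) : IntS (P * Q) :=
  intS_iff.mpr (mul_mem (intS_iff.mp hP) (intS_iff.mp hQ))

lemma IntS.pow (hP : IntS P) (k : ℕ) : IntS (P ^ k) :=
  intS_iff.mpr (pow_mem (intS_iff.mp hP) k)

lemma intS_one : IntS 1 := intS_iff.mpr (one_mem _)

lemma intS_zero : IntS 0 := intS_iff.mpr (zero_mem _)

lemma intS_X : IntS X := by
  intro m
  rw [coeff_X]
  split_ifs
  · exact isIntegral_one
  · exact isIntegral_zero

lemma intS_C {c : ℂ} (hc : IsIntegral ℤ c) : IntS (C c) := by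
  intro m
  rw [coeff_C]
  split_ifs
  · exact hc
  · exact isIntegral_zero

lemma IntS.of_X_mul (hP : IntS (X * P)) : IntS P := by
  intro m
  simpa [coeff_succ_X_mul] using hP (m + 1)

lemma IntS.dil (hP : IntS P) {ζ : ℂ} (hζ : IsIntegral ℤ ζ) (k : ℕ) : IntS (dil ζ k P) := by
  intro m
  simp only [Pool.Agent.Lib.helper6.dil, coeff_mk]
  split_ifs
  · exact (hP _).mul (hζ.pow _)
  · exact isIntegral_zero

lemma IntS.of_mul_eq {U E : ℂ⟦X⟧} (hU : IntS U) (hU0 : coeff 0 U = 1) (hE : IntS E)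
    (h : P * U = E) : IntS P := by
  obtain ⟨U', rfl⟩ := intS_iff.mp hU
  have hu : IsUnit U' := by
    rw [PowerSeries.isUnit_iff_constantCoeff]
    have : constantCoeff U' = 1 := by
      apply Subtype.ext
      simpa using hU0
    rw [this]
    exact isUnit_one
  obtain ⟨V, hV⟩ := hu.exists_right_inv
  have : P = E * PowerSeries.map (integralClosure ℤ ℂ).val.toRingHom V := by
    rw [← h, mul_assoc, ← map_mul, hV, map_one, mul_one]
  rw [this]
  exact hE.mul (intS_iff.mpr ⟨V, rfl⟩)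

end Pool.Agent.Lib.helper6
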